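import Pool.Agent.Run7.h802.HP.Iface

/-! # Piece ZERO (helper468) -/

set_option autoImplicit false

namespace Pool.Agent.Run7.h468.HP

open MvPolynomial Pool.Agent.Run7.h802.HP

/-- the box -/
noncomputable def box (N H : ℕ) : Finset (Fin N → ℤ) := Fintype.piFinset fun _ => Finset.Icc (-(H : ℤ)) H

lemma mem_box {N H : ℕ} {b : Fin N → ℤ} : b ∈ box N H ↔ ∀ i, |b i| ≤ H := by
  simp [box, abs_le]

lemma card_box (N H : ℕ) : (box N H).card = (2 * H + 1) ^ N := by
  simp only [box, Fintype.card_piFinset, Int.card_Icc, Finset.prod_const, Finset.card_univ,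
    Fintype.card_fin]
  congr 1
  omega

lemma zeroFin {N : ℕ} (h : MvPolynomial (Fin N) ℤ) (hh : h ≠ 0) (Q : ℕ) (hQ : 0 < Q)
    (c : Fin N → ℤ) (H : ℕ) :
    (((box N H).filter fun b => eval (fun i => c i + Q * b i) h = 0).card : ℝ) * (2 * H + 1) ≤
      (∑ i, (h.degreeOf i : ℝ)) * (2 * H + 1) ^ N := by
  classical
  set S : Fin N → Finset ℤ := fun i => (Finset.Icc (-(H : ℤ)) H).image fun z => c i + Q * z with hS
  have hinj : ∀ i, Function.Injective fun z : ℤ => c i + Q * z := by
    intro i a b hab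
    have h1 : (Q : ℤ) ≠ 0 := by exact_mod_cast hQ.ne'
    have h2 : (Q : ℤ) * a = Q * b := by simpa using hab
    exact mul_left_cancel₀ h1 h2
  have hcard : ∀ i, (S i).card = 2 * H + 1 := by
    intro i
    rw [hS, Finset.card_image_of_injective _ (hinj i), Int.card_Icc]
    omega
  have hsz := schwartz_zippel_sum_degreeOf hh S
  simp only [hcard, Finset.prod_const, Finset.card_univ, Fintype.card_fin] at hsz
  have hle : ((box N H).filter fun b => eval (fun i => c i + Q * b i) h = 0).card ≤
      ((Fintype.piFinset S).filter fun x => eval x h = 0).card := by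
    apply Finset.card_le_card_of_injOn (fun b i => c i + Q * b i)
    · intro b hb
      simp only [Finset.coe_filter, Set.mem_ofPred_eq, Fintype.mem_piFinset] at hb ⊢
      refine ⟨fun i => ?_, hb.2⟩
      rw [hS]
      refine Finset.mem_image.2 ⟨b i, ?_, rfl⟩
      have h1 := mem_box.1 hb.1 i
      rw [abs_le] at h1
      exact Finset.mem_Icc.2 h1
    · intro a _ b _ hab
      funext i
      exact hinj i (congrFun hab i)
  have h2 : ((((Fintype.piFinset S).filter fun x => eval x h = 0).card : ℝ) /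
      (((2 * H + 1 : ℕ) : ℝ)) ^ N) ≤ ∑ i, ((h.degreeOf i : ℝ) / ((2 * H + 1 : ℕ) : ℝ)) := by
    have h5 := (NNRat.cast_le (K := ℝ)).2 hsz
    push_cast at h5 ⊢
    exact h5
  have hpos : (0 : ℝ) < ((2 * H + 1 : ℕ) : ℝ) := by positivity
  rw [div_le_iff₀ (by positivity), ← Finset.sum_div, div_mul_eq_mul_div, le_div_iff₀ hpos] at h2
  have h3 : ((2 * H + 1 : ℕ) : ℝ) = 2 * H + 1 := by push_cast; ring
  rw [h3] at h2
  refine le_trans ?_ h2
  have h4 : (((box N H).filter fun b => eval (fun i => c i + Q * b i) h = 0).card : ℝ) ≤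
      (((Fintype.piFinset S).filter fun x => eval x h = 0).card : ℝ) := by exact_mod_cast hle
  exact mul_le_mul_of_nonneg_right h4 (by positivity)

/-- transfer of the counting along a bijection of the variables -/
lemma card_transfer {σ : Type} [Fintype σ] {N : ℕ} (e : σ ≃ Fin N) (H : ℕ)
    (P : (σ → ℤ) → Prop) [DecidablePred fun b : Fin N → ℤ => P fun i => b (e i)] :
    Nat.card {b : σ → ℤ // (∀ i, |b i| ≤ H) ∧ P b} =
      ((box N H).filter fun b : Fin N → ℤ => P fun i => b (e i)).card := by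
  classical
  rw [← Nat.subtype_card (p := fun b : Fin N → ℤ => (∀ i, |b i| ≤ H) ∧ P fun i => b (e i))
    ((box N H).filter fun b : Fin N → ℤ => P fun i => b (e i))]
  · refine Nat.card_congr (Equiv.subtypeEquiv (Equiv.arrowCongr e (Equiv.refl ℤ)) ?_)
    intro b
    have h1 : (fun i => (Equiv.arrowCongr e (Equiv.refl ℤ)) b (e i)) = b := by
      funext i
      simp [Equiv.arrowCongr]
    rw [h1]
    refine and_congr_left fun _ => ?_
    constructor
    · intro h j
      simpa [Equiv.arrowCongr] using h (e.symm j)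
    · intro h i
      have := h (e i)
      simpa [Equiv.arrowCongr] using this
  · intro b
    rw [Finset.mem_filter, mem_box]

lemma eval_transfer {σ : Type} {N : ℕ} (e : σ ≃ Fin N) (h : MvPolynomial σ ℤ) (Q : ℕ) (c : σ → ℤ)
    (b : Fin N → ℤ) :
    eval (fun i => c i + Q * b (e i)) h =
      eval (fun j => c (e.symm j) + Q * b j) (rename e h) := by
  rw [eval_rename]
  congr 1
  congr 1
  funext i
  simp

theorem ZERO : S_ZERO := by
  classical
  intro σ _ _ h hh ε hε Q hQ c
  set N := Fintype.card σ with hN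
  let e : σ ≃ Fin N := Fintype.equivFin σ
  have hh' : rename e h ≠ 0 := by
    intro h0
    exact hh (rename_injective e e.injective (by rw [h0, map_zero]))
  set K : ℝ := ∑ i, ((rename e h).degreeOf i : ℝ) with hK
  have hK0 : 0 ≤ K := Finset.sum_nonneg fun i _ => by positivity
  obtain ⟨H₀, hH₀⟩ := exists_nat_ge (K / ε)
  refine ⟨H₀, fun H hH => ?_⟩
  rw [card_transfer e H (fun b => eval (fun i => c i + Q * b i) h = 0)]
  simp only [eval_transfer e h Q c]
  have h1 := zeroFin (rename e h) hh' Q hQ (fun j => c (e.symm j)) H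
  have h2 : K ≤ ε * (2 * H + 1) := by
    have h3 : K / ε ≤ 2 * H + 1 := by
      have h4 : (H₀ : ℝ) ≤ H := by exact_mod_cast hH
      have h5 : (0 : ℝ) ≤ H := by positivity
      linarith
    rw [div_le_iff₀ hε] at h3
    linarith
  have hpos : (0 : ℝ) < 2 * H + 1 := by positivity
  have h6 : K * (2 * H + 1) ^ N ≤ (ε * (2 * (H : ℝ) + 1) ^ N) * (2 * H + 1) := by
    calc K * (2 * H + 1) ^ N ≤ (ε * (2 * H + 1)) * (2 * H + 1) ^ N :=
          mul_le_mul_of_nonneg_right h2 (by positivity)
      _ = _ := by ring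
  exact le_of_mul_le_mul_right (h1.trans h6) hpos

end Pool.Agent.Run7.h468.HP
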