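import Pool.Agent.Run7.h802.HP.Iface
import Pool.Agent.Run7.h468.HP.ZERO

/-! # Piece COUNT (helper468) -/

set_option autoImplicit false

namespace Pool.Agent.Run7.h468.HP

open MvPolynomial Pool.Agent.Run7.h802.HP

lemma aeval_eq_eval_map' {N : ℕ} {R : Type} [CommRing R] (y : Fin N → R)
    (r : MvPolynomial (Fin N) ℤ) : aeval y r = eval y (map (Int.castRingHom R) r) := by
  rw [aeval_def, eval₂_eq_eval_map]
  rfl

lemma eval_cast {N : ℕ} {R : Type} [CommRing R] (x : Fin N → ℤ) (r : MvPolynomial (Fin N) ℤ) :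
    ((eval x r : ℤ) : R) = aeval (fun i => ((x i : ℤ) : R)) r := by
  have h1 : aeval x r = eval x r := rfl
  rw [← h1]
  have h2 := map_aeval x (Int.castRingHom R) r
  rw [eq_intCast] at h2
  rw [h2, aeval_def]
  have h3 : (Int.castRingHom R).comp (algebraMap ℤ ℤ) = algebraMap ℤ R := Subsingleton.elim _ _
  rw [h3]
  rfl

lemma totalDegree_map_le' {N : ℕ} {R : Type} [CommRing R] (r : MvPolynomial (Fin N) ℤ)
    (f : ℤ →+* R) : (map f r).totalDegree ≤ r.totalDegree :=
  Finset.sup_mono (support_map_subset f r)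

/-- number of common zeros modulo `p` -/
lemma card_Zp {N : ℕ} (h g : MvPolynomial (Fin (N + 1)) ℤ) (l : Fin N → ℤ) (D : ℕ)
    (r : MvPolynomial (Fin N) ℤ) (p : ℕ) [Fact p.Prime]
    (hI : ∀ (y : Fin N → ZMod p) (t : ZMod p), aeval y r ∈ Ideal.span
      {aeval (Fin.snoc (α := fun _ => ZMod p) (fun i => y i + l i * t) t) h,
       aeval (Fin.snoc (α := fun _ => ZMod p) (fun i => y i + l i * t) t) g})
    (hD : ∀ y : Fin N → ZMod p,
      {t : ZMod p | aeval (Fin.snoc (α := fun _ => ZMod p) (fun i => y i + l i * t) t) h = 0}.encard ≤ D)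
    (hr : map (Int.castRingHom (ZMod p)) r ≠ 0) :
    (Finset.univ.filter fun ξ : Fin (N + 1) → ZMod p => aeval ξ h = 0 ∧ aeval ξ g = 0).card * p ≤
      D * (r.totalDegree * p ^ N) := by
  classical
  have hp : p.Prime := Fact.out
  set s := Finset.univ.filter fun ξ : Fin (N + 1) → ZMod p => aeval ξ h = 0 ∧ aeval ξ g = 0 with hs
  set Φ : (Fin (N + 1) → ZMod p) → (Fin N → ZMod p) :=
    fun ξ i => ξ i.castSucc - l i * ξ (Fin.last N) with hΦ
  have hback : ∀ ξ : Fin (N + 1) → ZMod p,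
      Fin.snoc (α := fun _ => ZMod p) (fun i => Φ ξ i + l i * ξ (Fin.last N)) (ξ (Fin.last N)) = ξ := by
    intro ξ
    funext i
    refine Fin.lastCases ?_ (fun j => ?_) i
    · simp
    · simp [hΦ]
  have h1 : s.card ≤ D * (s.image Φ).card := by
    apply Finset.card_le_mul_card_image
    intro a _
    set T : Finset (ZMod p) := Finset.univ.filter fun t =>
      aeval (Fin.snoc (α := fun _ => ZMod p) (fun i => a i + l i * t) t) h = 0 with hT
    have hTD : T.card ≤ D := by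
      have h2 := hD a
      have h3 : {t : ZMod p | aeval (Fin.snoc (α := fun _ => ZMod p) (fun i => a i + l i * t) t) h = 0}
          = (T : Set (ZMod p)) := by
        ext t
        simp [hT]
      rw [h3, Set.encard_coe_eq_coe_finsetCard] at h2
      exact_mod_cast h2
    refine le_trans (Finset.card_le_card_of_injOn (fun ξ => ξ (Fin.last N)) ?_ ?_) hTD
    · intro ξ hξ
      simp only [Finset.coe_filter, Set.mem_ofPred_eq] at hξ
      simp only [hT, Finset.coe_filter, Set.mem_ofPred_eq, Finset.mem_univ, true_and]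
      rw [← hξ.2, hback ξ]
      exact (Finset.mem_filter.1 hξ.1).2.1
    · intro ξ hξ ζ hζ hab
      simp only [Finset.coe_filter, Set.mem_ofPred_eq] at hξ hζ
      have hab' : ξ (Fin.last N) = ζ (Fin.last N) := hab
      rw [← hback ξ, ← hback ζ, hξ.2, hζ.2, hab']
  have h2 : (s.image Φ) ⊆ (Fintype.piFinset fun _ : Fin N => (Finset.univ : Finset (ZMod p))).filter
      fun y => eval y (map (Int.castRingHom (ZMod p)) r) = 0 := by
    intro y hy
    obtain ⟨ξ, hξ, rfl⟩ := Finset.mem_image.1 hy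
    rw [Finset.mem_filter]
    refine ⟨by simp, ?_⟩
    rw [← aeval_eq_eval_map']
    have h3 := hI (Φ ξ) (ξ (Fin.last N))
    rw [hback ξ] at h3
    have h4 := (Finset.mem_filter.1 hξ).2
    rw [h4.1, h4.2] at h3
    obtain ⟨u, v, huv⟩ := Ideal.mem_span_pair.1 h3
    rw [← huv]
    ring
  have h3 := schwartz_zippel_totalDegree hr (Finset.univ : Finset (ZMod p))
  rw [Finset.card_univ, ZMod.card] at h3
  have h4 : ((((Fintype.piFinset fun _ : Fin N => (Finset.univ : Finset (ZMod p))).filter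
      fun y => eval y (map (Int.castRingHom (ZMod p)) r) = 0).card : ℝ) / (p : ℝ) ^ N) ≤
      ((map (Int.castRingHom (ZMod p)) r).totalDegree : ℝ) / (p : ℝ) := by
    have h5 := (NNRat.cast_le (K := ℝ)).2 h3
    push_cast at h5 ⊢
    exact h5
  have hp0 : (0 : ℝ) < p := by exact_mod_cast hp.pos
  rw [div_le_iff₀ (by positivity), div_mul_eq_mul_div, le_div_iff₀ hp0] at h4
  have h6 : ((Fintype.piFinset fun _ : Fin N => (Finset.univ : Finset (ZMod p))).filter
      fun y => eval y (map (Int.castRingHom (ZMod p)) r) = 0).card * p ≤ r.totalDegree * p ^ N := by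
    have h7 : ((map (Int.castRingHom (ZMod p)) r).totalDegree : ℝ) ≤ (r.totalDegree : ℝ) := by
      exact_mod_cast totalDegree_map_le' r _
    have h8 := h4.trans (mul_le_mul_of_nonneg_right h7 (by positivity))
    exact_mod_cast h8
  calc s.card * p ≤ (D * (s.image Φ).card) * p := Nat.mul_le_mul_right _ h1
    _ = D * ((s.image Φ).card * p) := by ring
    _ ≤ D * (r.totalDegree * p ^ N) := by
        apply Nat.mul_le_mul_left
        exact (Nat.mul_le_mul_right _ (Finset.card_le_card h2)).trans h6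

/-- one residue class in an interval -/
lemma class_card (p Q H : ℕ) (hp : p.Prime) (hQ : ¬ p ∣ Q) (c : ℤ) (ξ : ZMod p) :
    ((Finset.Icc (-(H : ℤ)) H).filter fun z => ((c + Q * z : ℤ) : ZMod p) = ξ).card ≤
      (2 * H + 1) / p + 1 := by
  classical
  have : Fact p.Prime := ⟨hp⟩
  set s := (Finset.Icc (-(H : ℤ)) H).filter fun z => ((c + Q * z : ℤ) : ZMod p) = ξ with hs
  rcases s.eq_empty_or_nonempty with h0 | ⟨z₀, hz₀⟩
  · rw [h0]
    simp
  have hsub : s ⊆ (Finset.Ico (-(H : ℤ)) (H + 1)).filter fun z => z ≡ z₀ [ZMOD p] := by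
    intro z hz
    rw [Finset.mem_filter] at hz hz₀ ⊢
    refine ⟨?_, ?_⟩
    · have := Finset.mem_Icc.1 hz.1
      rw [Finset.mem_Ico]
      omega
    · have h1 : ((c + Q * z : ℤ) : ZMod p) = ((c + Q * z₀ : ℤ) : ZMod p) := hz.2.trans hz₀.2.symm
      have h2 : (Q : ZMod p) * (z : ZMod p) = (Q : ZMod p) * (z₀ : ZMod p) := by
        push_cast at h1
        exact add_left_cancel h1
      have h3 : (Q : ZMod p) ≠ 0 := by
        rw [Ne, ZMod.natCast_eq_zero_iff]
        exact hQ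
      have h4 := mul_left_cancel₀ h3 h2
      exact (ZMod.intCast_eq_intCast_iff z z₀ p).1 h4
  refine (Finset.card_le_card hsub).trans ?_
  have h1 := Int.Ico_filter_modEq_card (a := -(H : ℤ)) (b := (H : ℤ) + 1) (r := (p : ℤ))
    (by exact_mod_cast hp.pos) z₀
  have h2 : ((((Finset.Ico (-(H : ℤ)) (H + 1)).filter fun z => z ≡ z₀ [ZMOD p]).card : ℕ) : ℤ) ≤
      ((2 * H + 1) / p + 1 : ℕ) := by
    rw [h1]
    apply max_le
    · set x : ℚ := (((H : ℤ) + 1 : ℤ) - z₀) / ((p : ℤ) : ℚ) with hx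
      set y : ℚ := ((-(H : ℤ) : ℤ) - z₀) / ((p : ℤ) : ℚ) with hy
      have hp0 : (0 : ℚ) < ((p : ℤ) : ℚ) := by exact_mod_cast hp.pos
      have hxy : x - y = (2 * H + 1) / ((p : ℤ) : ℚ) := by
        rw [hx, hy, ← sub_div]
        congr 1
        push_cast
        ring
      have hlt : (2 * (H : ℚ) + 1) / ((p : ℤ) : ℚ) < ((2 * H + 1) / p : ℕ) + 1 := by
        rw [div_lt_iff₀ hp0]
        have := Nat.lt_mul_div_succ (2 * H + 1) hp.pos
        have h5 : ((2 * H + 1 : ℕ) : ℚ) < ((p * ((2 * H + 1) / p + 1) : ℕ) : ℚ) := by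
          exact_mod_cast this
        push_cast at h5 ⊢
        linarith
      have h3 := Int.ceil_lt_add_one x
      have h4 := Int.le_ceil y
      have h5 : ((⌈x⌉ - ⌈y⌉ : ℤ) : ℚ) < (((((2 * H + 1) / p + 2 : ℕ) : ℤ)) : ℚ) := by
        have h7 : (((((2 * H + 1) / p + 2 : ℕ) : ℤ)) : ℚ) = (((2 * H + 1) / p : ℕ) : ℚ) + 2 := by
          rw [Int.cast_natCast, Nat.cast_add, Nat.cast_ofNat]
        rw [h7, Int.cast_sub]
        linarith
      have h6 : ⌈x⌉ - ⌈y⌉ < (((2 * H + 1) / p + 2 : ℕ) : ℤ) := Int.cast_lt.1 h5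
      push_cast at h6 ⊢
      linarith
    · positivity
  exact_mod_cast h2

/-- one residue class in a box -/
lemma class_box {n : ℕ} (p Q H : ℕ) (hp : p.Prime) (hQ : ¬ p ∣ Q) (c : Fin n → ℤ)
    (ξ : Fin n → ZMod p) :
    ((box n H).filter fun b => (fun i => ((c i + Q * b i : ℤ) : ZMod p)) = ξ).card ≤
      ((2 * H + 1) / p + 1) ^ n := by
  classical
  have h1 : ((box n H).filter fun b => (fun i => ((c i + Q * b i : ℤ) : ZMod p)) = ξ) ⊆
      Fintype.piFinset fun i =>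
        (Finset.Icc (-(H : ℤ)) H).filter fun z => ((c i + Q * z : ℤ) : ZMod p) = ξ i := by
    intro b hb
    rw [Finset.mem_filter] at hb
    rw [Fintype.mem_piFinset]
    intro i
    rw [Finset.mem_filter]
    refine ⟨?_, congrFun hb.2 i⟩
    have := mem_box.1 hb.1 i
    rw [abs_le] at this
    exact Finset.mem_Icc.2 this
  refine (Finset.card_le_card h1).trans ?_
  rw [Fintype.card_piFinset]
  calc _ ≤ ∏ _i : Fin n, ((2 * H + 1) / p + 1) :=
        Finset.prod_le_prod' fun i _ => class_card p Q H hp hQ (c i) (ξ i)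
    _ = _ := by simp

/-- primes dividing a number -/
lemma primes_bound (m K : ℕ) (hm : 1 ≤ m) (z : ℤ) (hz : z ≠ 0) (hzm : |z| ≤ (m : ℤ) ^ K)
    (S : Finset ℕ) (hS : ∀ p ∈ S, p.Prime ∧ m < p ∧ (p : ℤ) ∣ z) : S.card ≤ K := by
  by_contra hcon
  push Not at hcon
  have h1 : ∏ p ∈ S, p ∣ z.natAbs := by
    apply Finset.prod_primes_dvd
    · intro p hp
      exact (hS p hp).1.prime
    · intro p hp
      exact Int.natCast_dvd.1 (hS p hp).2.2
  have h2 : ∏ p ∈ S, p ≤ z.natAbs := Nat.le_of_dvd (Int.natAbs_pos.2 hz) h1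
  have h3 : (m + 1) ^ S.card ≤ ∏ p ∈ S, p := by
    rw [← Finset.prod_const]
    exact Finset.prod_le_prod' fun p hp => (hS p hp).2.1
  have h4 : (z.natAbs : ℤ) ≤ (m : ℤ) ^ K := by
    rw [← Int.abs_eq_natAbs] 
    exact hzm
  have h5 : z.natAbs ≤ m ^ K := by exact_mod_cast h4
  have h6 : m ^ K < (m + 1) ^ S.card := by
    calc m ^ K ≤ m ^ S.card := Nat.pow_le_pow_right hm hcon.le
      _ < (m + 1) ^ S.card := Nat.pow_lt_pow_left (Nat.lt_succ_self m) (by omega)
  omega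

/-- growth of a polynomial -/
lemma growth {N : ℕ} (r : MvPolynomial (Fin N) ℤ) (y : Fin N → ℤ) (Y : ℤ) (hY : 1 ≤ Y)
    (hy : ∀ i, |y i| ≤ Y) :
    |eval y r| ≤ (∑ m ∈ r.support, |coeff m r|) * Y ^ r.totalDegree := by
  rw [eval_eq', Finset.sum_mul]
  refine (Finset.abs_sum_le_sum_abs _ _).trans (Finset.sum_le_sum fun m hm => ?_)
  rw [abs_mul]
  apply mul_le_mul_of_nonneg_left _ (abs_nonneg _)
  rw [Finset.abs_prod]
  calc ∏ i, |y i ^ m i| ≤ ∏ i, Y ^ m i := by
        apply Finset.prod_le_prod (fun i _ => abs_nonneg _)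
        intro i _
        rw [abs_pow]
        exact pow_le_pow_left₀ (abs_nonneg _) (hy i) _
    _ = Y ^ ∑ i, m i := by rw [Finset.prod_pow_eq_pow_sum]
    _ ≤ Y ^ r.totalDegree := by
        apply pow_le_pow_right₀ hY
        have h1 := le_totalDegree hm
        rw [Finsupp.sum_fintype _ _ (fun _ => rfl)] at h1
        exact h1

/-- medium primes -/
lemma medium {N : ℕ} (h g : MvPolynomial (Fin (N + 1)) ℤ) (l : Fin N → ℤ) (D : ℕ)
    (r : MvPolynomial (Fin N) ℤ) (p : ℕ) (hp : p.Prime)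
    (hI : ∀ (y : Fin N → ZMod p) (t : ZMod p), aeval y r ∈ Ideal.span
      {aeval (Fin.snoc (α := fun _ => ZMod p) (fun i => y i + l i * t) t) h,
       aeval (Fin.snoc (α := fun _ => ZMod p) (fun i => y i + l i * t) t) g})
    (hD : ∀ y : Fin N → ZMod p,
      {t : ZMod p | aeval (Fin.snoc (α := fun _ => ZMod p) (fun i => y i + l i * t) t) h = 0}.encard ≤ D)
    (hr : map (Int.castRingHom (ZMod p)) r ≠ 0) (Q H : ℕ) (hQ : ¬ p ∣ Q) (hpH : p ≤ 2 * H + 1)
    (c : Fin (N + 1) → ℤ) :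
    ((box (N + 1) H).filter fun b => (p : ℤ) ∣ eval (fun i => c i + Q * b i) h ∧
      (p : ℤ) ∣ eval (fun i => c i + Q * b i) g).card * p ^ 2 ≤
      2 ^ (N + 1) * D * r.totalDegree * (2 * H + 1) ^ (N + 1) := by
  classical
  have : Fact p.Prime := ⟨hp⟩
  set s := (box (N + 1) H).filter fun b => (p : ℤ) ∣ eval (fun i => c i + Q * b i) h ∧
      (p : ℤ) ∣ eval (fun i => c i + Q * b i) g with hs
  set Φ : (Fin (N + 1) → ℤ) → (Fin (N + 1) → ZMod p) :=
    fun b i => ((c i + Q * b i : ℤ) : ZMod p) with hΦ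
  set Z := (Finset.univ.filter fun ξ : Fin (N + 1) → ZMod p => aeval ξ h = 0 ∧ aeval ξ g = 0).card
    with hZ
  have h1 : s.card ≤ ((2 * H + 1) / p + 1) ^ (N + 1) * (s.image Φ).card := by
    apply Finset.card_le_mul_card_image
    intro ξ _
    refine (Finset.card_le_card ?_).trans (class_box p Q H hp hQ c ξ)
    intro b hb
    rw [Finset.mem_filter] at hb ⊢
    exact ⟨(Finset.mem_filter.1 hb.1).1, hb.2⟩
  have h2 : (s.image Φ).card ≤ Z := by
    apply Finset.card_le_card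
    intro ξ hξ
    obtain ⟨b, hb, rfl⟩ := Finset.mem_image.1 hξ
    rw [Finset.mem_filter] at hb ⊢
    refine ⟨Finset.mem_univ _, ?_, ?_⟩
    · rw [← eval_cast, ZMod.intCast_zmod_eq_zero_iff_dvd]
      exact hb.2.1
    · rw [← eval_cast, ZMod.intCast_zmod_eq_zero_iff_dvd]
      exact hb.2.2
  have h3 := card_Zp h g l D r p hI hD hr
  rw [← hZ] at h3
  have h4 : ((2 * H + 1) / p + 1) * p ≤ 2 * (2 * H + 1) := by
    have := Nat.div_mul_le_self (2 * H + 1) p
    nlinarith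
  have hpN : 0 < p ^ N := Nat.pow_pos hp.pos
  apply Nat.le_of_mul_le_mul_right _ hpN
  calc s.card * p ^ 2 * p ^ N ≤
      (((2 * H + 1) / p + 1) ^ (N + 1) * Z) * p ^ 2 * p ^ N := by
        gcongr
        exact h1.trans (Nat.mul_le_mul_left _ h2)
    _ = (((2 * H + 1) / p + 1) * p) ^ (N + 1) * (Z * p) := by
        generalize (2 * H + 1) / p + 1 = u
        rw [mul_pow]
        ring
    _ ≤ (2 * (2 * H + 1)) ^ (N + 1) * (D * (r.totalDegree * p ^ N)) := by
        gcongr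
    _ = 2 ^ (N + 1) * D * r.totalDegree * (2 * H + 1) ^ (N + 1) * p ^ N := by
        generalize 2 * H + 1 = u
        rw [mul_pow]
        ring

section large

variable {N : ℕ} (l : Fin N → ℤ)

/-- shear -/
def shear (b : Fin (N + 1) → ℤ) : Fin N → ℤ := fun i => b i.castSucc - l i * b (Fin.last N)

lemma shear_box {L H : ℕ} (hL : ∀ i, |l i| + 1 ≤ L) {b : Fin (N + 1) → ℤ} (hb : b ∈ box (N + 1) H) :
    shear l b ∈ box N (L * H) := by
  rw [mem_box] at hb ⊢
  intro i
  have h1 := hb i.castSucc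
  have h2 := hb (Fin.last N)
  have h3 : |shear l b i| ≤ |b i.castSucc| + |l i| * |b (Fin.last N)| := by
    unfold shear
    rw [← abs_mul]
    exact abs_sub _ _
  have h4 : |l i| * |b (Fin.last N)| ≤ |l i| * H := mul_le_mul_of_nonneg_left h2 (abs_nonneg _)
  have h5 : (|l i| + 1) * (H : ℤ) ≤ L * H := mul_le_mul_of_nonneg_right (hL i) (by positivity)
  push_cast
  linarith

lemma shear_eq (c b : Fin (N + 1) → ℤ) (Q : ℕ) :
    (fun i => c i + Q * b i) = Fin.snoc (α := fun _ => ℤ)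
      (fun i => ((shear l c i + Q * shear l b i) + l i * (c (Fin.last N) + Q * b (Fin.last N))))
      (c (Fin.last N) + Q * b (Fin.last N)) := by
  funext i
  refine Fin.lastCases ?_ (fun j => ?_) i
  · simp
  · simp only [Fin.snoc_castSucc, shear]
    ring

lemma shear_inj {b b' : Fin (N + 1) → ℤ} (h : shear l b = shear l b')
    (ht : b (Fin.last N) = b' (Fin.last N)) : b = b' := by
  funext i
  refine Fin.lastCases ht (fun j => ?_) i
  have := congrFun h j
  simp only [shear, ht] at this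
  linarith

open Classical in
lemma large2 (h : MvPolynomial (Fin (N + 1)) ℤ) (D : ℕ) (r : MvPolynomial (Fin N) ℤ) (B Q H L K : ℕ)
    (hL : ∀ i, |l i| + 1 ≤ L) (hQB : ∀ p : ℕ, p.Prime → p ≤ B → p ∣ Q)
    (hD : ∀ p : ℕ, p.Prime → B < p → ∀ y : Fin N → ZMod p,
      {t : ZMod p | aeval (Fin.snoc (α := fun _ => ZMod p) (fun i => y i + l i * t) t) h = 0}.encard ≤ D)
    (c : Fin (N + 1) → ℤ)
    (hK : ∀ a ∈ box N (L * H), |eval (fun i => shear l c i + Q * a i) r| ≤ ((2 * H + 1 : ℕ) : ℤ) ^ K) :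
    ((box (N + 1) H).filter fun b => eval (fun i => shear l c i + Q * shear l b i) r ≠ 0 ∧
      ∃ p : ℕ, p.Prime ∧ 2 * H + 1 < p ∧ ¬ p ∣ Q ∧ (p : ℤ) ∣ eval (fun i => c i + Q * b i) h ∧
        (p : ℤ) ∣ eval (fun i => shear l c i + Q * shear l b i) r).card ≤
      (K * D) * (2 * (L * H) + 1) ^ N := by
  classical
  set s := (box (N + 1) H).filter fun b => eval (fun i => shear l c i + Q * shear l b i) r ≠ 0 ∧
      ∃ p : ℕ, p.Prime ∧ 2 * H + 1 < p ∧ ¬ p ∣ Q ∧ (p : ℤ) ∣ eval (fun i => c i + Q * b i) h ∧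
        (p : ℤ) ∣ eval (fun i => shear l c i + Q * shear l b i) r with hs
  have him : s.image (shear l) ⊆ box N (L * H) := by
    intro a ha
    obtain ⟨b, hb, rfl⟩ := Finset.mem_image.1 ha
    exact shear_box l hL (Finset.mem_filter.1 hb).1
  have h1 : s.card ≤ (K * D) * (s.image (shear l)).card := by
    apply Finset.card_le_mul_card_image
    intro a ha
    obtain ⟨b₀, hb₀, hab₀⟩ := Finset.mem_image.1 ha
    have hne : eval (fun i => shear l c i + Q * a i) r ≠ 0 := by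
      rw [← hab₀]
      exact (Finset.mem_filter.1 hb₀).2.1
    set P := ((eval (fun i => shear l c i + Q * a i) r).natAbs.primeFactors.filter
      fun p => 2 * H + 1 < p ∧ ¬ p ∣ Q) with hP
    set F : ℕ → Finset (Fin (N + 1) → ℤ) := fun p => (box (N + 1) H).filter fun b =>
      shear l b = a ∧ (p : ℤ) ∣ eval (fun i => c i + Q * b i) h with hF
    have hPK : P.card ≤ K := by
      refine primes_bound (2 * H + 1) K (by omega) _ hne (hK a (him ha)) P ?_
      intro p hp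
      rw [hP, Finset.mem_filter, Nat.mem_primeFactors] at hp
      exact ⟨hp.1.1, hp.2.1, Int.natCast_dvd.2 hp.1.2.1⟩
    have hsub : (s.filter fun b => shear l b = a) ⊆ P.biUnion F := by
      intro b hb
      rw [Finset.mem_filter] at hb
      obtain ⟨hbs, hba⟩ := hb
      rw [hs, Finset.mem_filter] at hbs
      obtain ⟨hbb, _, p, hp, hpH, hpQ, hph, hpr⟩ := hbs
      rw [Finset.mem_biUnion]
      refine ⟨p, ?_, ?_⟩
      · rw [hP, Finset.mem_filter, Nat.mem_primeFactors]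
        rw [hba] at hpr
        exact ⟨⟨hp, Int.natCast_dvd.1 hpr, Int.natAbs_ne_zero.2 hne⟩, hpH, hpQ⟩
      · rw [hF, Finset.mem_filter]
        exact ⟨hbb, hba, hph⟩
    refine (Finset.card_le_card hsub).trans ?_
    refine (Finset.card_biUnion_le_card_mul P F D ?_).trans (Nat.mul_le_mul_right _ hPK)
    intro p hp
    rw [hP, Finset.mem_filter, Nat.mem_primeFactors] at hp
    have hpp : p.Prime := hp.1.1
    have : Fact p.Prime := ⟨hpp⟩
    have hBp : B < p := by
      by_contra hcon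
      exact hp.2.2 (hQB p hpp (not_lt.1 hcon))
    set y : Fin N → ZMod p := fun i => ((shear l c i + Q * a i : ℤ) : ZMod p) with hy
    set T : Finset (ZMod p) := Finset.univ.filter fun t =>
      aeval (Fin.snoc (α := fun _ => ZMod p) (fun i => y i + l i * t) t) h = 0 with hT
    have hTD : T.card ≤ D := by
      have h2 := hD p hpp hBp y
      have h3 : {t : ZMod p | aeval (Fin.snoc (α := fun _ => ZMod p) (fun i => y i + l i * t) t) h = 0}
          = (T : Set (ZMod p)) := by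
        ext t
        simp [hT]
      rw [h3, Set.encard_coe_eq_coe_finsetCard] at h2
      exact_mod_cast h2
    refine le_trans (Finset.card_le_card_of_injOn
      (fun b => ((c (Fin.last N) + Q * b (Fin.last N) : ℤ) : ZMod p)) ?_ ?_) hTD
    · intro b hb
      simp only [hF, Finset.coe_filter, Set.mem_ofPred_eq] at hb
      simp only [hT, Finset.coe_filter, Set.mem_ofPred_eq, Finset.mem_univ, true_and]
      obtain ⟨_, hba, hbh⟩ := hb
      rw [← ZMod.intCast_zmod_eq_zero_iff_dvd, eval_cast] at hbh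
      rw [← hbh]
      congr 1
      congr 1
      funext i
      have h5 := congrFun (shear_eq l c b Q) i
      rw [h5, hba]
      refine Fin.lastCases ?_ (fun j => ?_) i
      · simp
      · simp [hy]
    · intro b hb b' hb' hbb'
      simp only [hF, Finset.coe_filter, Set.mem_ofPred_eq] at hb hb'
      have h5 : ((c (Fin.last N) + Q * b (Fin.last N) : ℤ) : ZMod p) =
        ((c (Fin.last N) + Q * b' (Fin.last N) : ℤ) : ZMod p) := hbb'
      have h6 : (Q : ZMod p) * ((b (Fin.last N) : ℤ) : ZMod p) =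
          (Q : ZMod p) * ((b' (Fin.last N) : ℤ) : ZMod p) := by
        push_cast at h5
        exact add_left_cancel h5
      have h7 : (Q : ZMod p) ≠ 0 := by
        rw [Ne, ZMod.natCast_eq_zero_iff]
        exact hp.2.2
      have h8 := mul_left_cancel₀ h7 h6
      have h9 := (ZMod.intCast_eq_intCast_iff_dvd_sub _ _ p).1 h8
      have hB1 := mem_box.1 hb.1 (Fin.last N)
      have hB2 := mem_box.1 hb'.1 (Fin.last N)
      have h10 : b' (Fin.last N) - b (Fin.last N) = 0 := by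
        apply Int.eq_zero_of_abs_lt_dvd h9
        rw [abs_le] at hB1 hB2
        have : (2 * (H : ℤ) + 1) < p := by exact_mod_cast hp.2.1
        rw [abs_lt]
        constructor <;> linarith
      apply shear_inj l (hb.2.1.trans hb'.2.1.symm)
      linarith
  refine h1.trans (Nat.mul_le_mul_left _ ?_)
  rw [← card_box]
  exact Finset.card_le_card him

lemma large1 (r : MvPolynomial (Fin N) ℤ) (hr : r ≠ 0) (Q H L : ℕ) (hQ : 0 < Q)
    (hL : ∀ i, |l i| + 1 ≤ L) (hL1 : 1 ≤ L) (c : Fin (N + 1) → ℤ) :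
    (((box (N + 1) H).filter fun b =>
      eval (fun i => shear l c i + Q * shear l b i) r = 0).card : ℝ) ≤
      (∑ i, (r.degreeOf i : ℝ)) * (2 * ((L * H : ℕ) : ℝ) + 1) ^ N := by
  classical
  set s := (box (N + 1) H).filter fun b =>
      eval (fun i => shear l c i + Q * shear l b i) r = 0 with hs
  set Z := (box N (L * H)).filter fun a => eval (fun i => shear l c i + Q * a i) r = 0 with hZ
  have him : s.image (shear l) ⊆ Z := by
    intro a ha
    obtain ⟨b, hb, rfl⟩ := Finset.mem_image.1 ha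
    rw [Finset.mem_filter] at hb ⊢
    exact ⟨shear_box l hL hb.1, hb.2⟩
  have h1 : s.card ≤ (2 * H + 1) * (s.image (shear l)).card := by
    apply Finset.card_le_mul_card_image
    intro a _
    have hI : (Finset.Icc (-(H : ℤ)) H).card = 2 * H + 1 := by
      rw [Int.card_Icc]
      omega
    rw [← hI]
    refine Finset.card_le_card_of_injOn (fun b => b (Fin.last N)) ?_ ?_
    · intro b hb
      simp only [Finset.coe_filter, Set.mem_ofPred_eq] at hb
      have h2 := mem_box.1 (Finset.mem_filter.1 hb.1).1 (Fin.last N)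
      rw [abs_le] at h2
      simpa using h2
    · intro b hb b' hb' hbb'
      simp only [Finset.coe_filter, Set.mem_ofPred_eq] at hb hb'
      exact shear_inj l (hb.2.trans hb'.2.symm) hbb'
  have h2 := zeroFin r hr Q hQ (shear l c) (L * H)
  rw [← hZ] at h2
  have h3 : (s.card : ℝ) ≤ (2 * H + 1) * (Z.card : ℝ) := by
    have h4 : s.card ≤ (2 * H + 1) * Z.card := h1.trans (Nat.mul_le_mul_left _ (Finset.card_le_card him))
    exact_mod_cast h4
  have h5 : (2 * (H : ℝ) + 1) ≤ 2 * ((L * H : ℕ) : ℝ) + 1 := by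
    have : (H : ℝ) ≤ ((L * H : ℕ) : ℝ) := by
      exact_mod_cast Nat.le_mul_of_pos_left H hL1
    linarith
  calc (s.card : ℝ) ≤ (2 * H + 1) * (Z.card : ℝ) := h3
    _ ≤ (2 * ((L * H : ℕ) : ℝ) + 1) * (Z.card : ℝ) := mul_le_mul_of_nonneg_right h5 (by positivity)
    _ = (Z.card : ℝ) * (2 * ((L * H : ℕ) : ℝ) + 1) := by ring
    _ ≤ _ := h2

end large

open Classical in
/-- the bad points -/
noncomputable def bad {N : ℕ} (h g : MvPolynomial (Fin N) ℤ) (Q : ℕ) (c : Fin N → ℤ) (H : ℕ) :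
    Finset (Fin N → ℤ) :=
  (box N H).filter fun b => ∃ p : ℕ, p.Prime ∧ ¬ p ∣ Q ∧
    (p : ℤ) ∣ eval (fun i => c i + Q * b i) h ∧ (p : ℤ) ∣ eval (fun i => c i + Q * b i) g

theorem core (hE : S_ELIM) {N : ℕ} (h g : MvPolynomial (Fin (N + 1)) ℤ) (h0 : h ≠ 0)
    (hg : IsRelPrime (map (Int.castRingHom ℚ) h) (map (Int.castRingHom ℚ) g))
    (ε : ℝ) (hε : 0 < ε) : ∃ B : ℕ, ∀ Q : ℕ, 0 < Q → (∀ p : ℕ, p.Prime → p ≤ B → p ∣ Q) →
    ∀ c : Fin (N + 1) → ℤ, ∃ H₀ : ℕ, ∀ H : ℕ, H₀ ≤ H →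
      ((bad h g Q c H).card : ℝ) ≤ ε * (2 * (H : ℝ) + 1) ^ (N + 1) := by
  classical
  obtain ⟨l, D, e, r, he, hr, hI, hD⟩ := hE N h g h0 hg
  -- a nonzero coefficient of `r`
  obtain ⟨m₀, hm₀⟩ := MvPolynomial.ne_zero_iff.1 hr
  set C : ℝ := 2 ^ (N + 1) * D * r.totalDegree with hC
  have hC0 : 0 ≤ C := by positivity
  obtain ⟨B₁, hB₁⟩ := exists_nat_ge (2 * C / ε)
  set B : ℕ := B₁ + 1 + e.natAbs + (coeff m₀ r).natAbs with hB
  have hB1 : 1 ≤ B := by omega
  -- consequences for primes `p > B`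
  have hpe : ∀ p : ℕ, p.Prime → B < p → ((e : ℤ) : ZMod p) ≠ 0 := by
    intro p hp hBp h1
    rw [ZMod.intCast_zmod_eq_zero_iff_dvd] at h1
    have h2 := Nat.le_of_dvd (Int.natAbs_pos.2 he) (Int.natCast_dvd.1 h1)
    omega
  have hpr : ∀ p : ℕ, p.Prime → B < p → map (Int.castRingHom (ZMod p)) r ≠ 0 := by
    intro p hp hBp h1
    have h2 : coeff m₀ (map (Int.castRingHom (ZMod p)) r) = 0 := by rw [h1, coeff_zero]
    rw [coeff_map, eq_intCast, ZMod.intCast_zmod_eq_zero_iff_dvd] at h2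
    have h3 := Nat.le_of_dvd (Int.natAbs_pos.2 hm₀) (Int.natCast_dvd.1 h2)
    omega
  -- the constant `L`
  set L : ℕ := ∑ i, (l i).natAbs + 1 with hL
  have hL1 : 1 ≤ L := by omega
  have hLl : ∀ i, |l i| + 1 ≤ L := by
    intro i
    have h1 : (l i).natAbs ≤ ∑ i, (l i).natAbs :=
      Finset.single_le_sum (f := fun i => (l i).natAbs) (fun _ _ => Nat.zero_le _) (Finset.mem_univ i)
    have h2 : |l i| = ((l i).natAbs : ℤ) := Int.abs_eq_natAbs _
    rw [h2]
    have h3 : (l i).natAbs + 1 ≤ L := by omega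
    exact_mod_cast h3
  set K : ℕ := r.totalDegree + 1 with hK
  set S : ℝ := ∑ i, (r.degreeOf i : ℝ) with hS
  have hS0 : 0 ≤ S := Finset.sum_nonneg fun i _ => by positivity
  refine ⟨B, fun Q hQ hQB c => ?_⟩
  have hBQ : ∀ p : ℕ, p.Prime → ¬ p ∣ Q → B < p := by
    intro p hp hpQ
    by_contra hcon
    exact hpQ (hQB p hp (not_lt.1 hcon))
  -- growth constants
  set Cr : ℤ := ∑ m ∈ r.support, |coeff m r| with hCr
  have hCr0 : 0 ≤ Cr := Finset.sum_nonneg fun _ _ => abs_nonneg _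
  set A : ℤ := ∑ i, |shear l c i| + Q * L + 1 with hA
  have hA1 : 1 ≤ A := by
    have h1 : 0 ≤ ∑ i, |shear l c i| := Finset.sum_nonneg fun _ _ => abs_nonneg _
    have h2 : (0 : ℤ) ≤ Q * L := by positivity
    linarith
  obtain ⟨H₁, hH₁⟩ := exists_nat_ge (2 * ((S + K * D) * (L : ℝ) ^ N) / ε)
  refine ⟨H₁ + B + (Cr * A ^ r.totalDegree).natAbs, fun H hH => ?_⟩
  have hHB : B ≤ 2 * H + 1 := by omega
  -- growth of `r`
  have hgr : ∀ a ∈ box N (L * H), |eval (fun i => shear l c i + Q * a i) r| ≤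
      ((2 * H + 1 : ℕ) : ℤ) ^ K := by
    intro a ha
    have hm : (1 : ℤ) ≤ ((2 * H + 1 : ℕ) : ℤ) := by exact_mod_cast (by omega : 1 ≤ 2 * H + 1)
    have hy : ∀ i, |shear l c i + Q * a i| ≤ A * ((2 * H + 1 : ℕ) : ℤ) := by
      intro i
      have h1 := mem_box.1 ha i
      have h2 : |shear l c i| ≤ ∑ i, |shear l c i| :=
        Finset.single_le_sum (f := fun i => |shear l c i|) (fun _ _ => abs_nonneg _) (Finset.mem_univ i)
      have h3 : |shear l c i + Q * a i| ≤ |shear l c i| + Q * |a i| := by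
        refine (abs_add_le _ _).trans ?_
        rw [abs_mul, Nat.abs_cast]
      have h4 : (Q : ℤ) * |a i| ≤ Q * (L * H) := by
        apply mul_le_mul_of_nonneg_left _ (by positivity)
        exact_mod_cast h1
      have h5 : (0 : ℤ) ≤ Q * L := by positivity
      have h6 : (0 : ℤ) ≤ ∑ i, |shear l c i| := Finset.sum_nonneg fun _ _ => abs_nonneg _
      have h7 : (0 : ℤ) ≤ H := by positivity
      rw [hA]
      push_cast
      nlinarith [mul_nonneg h5 h7, mul_nonneg h6 h7]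
    have h1 := growth r _ (A * ((2 * H + 1 : ℕ) : ℤ)) (by nlinarith) hy
    refine h1.trans ?_
    rw [← hCr, mul_pow, hK, pow_succ]
    have h2 : Cr * A ^ r.totalDegree ≤ ((2 * H + 1 : ℕ) : ℤ) := by
      have h3 : Cr * A ^ r.totalDegree ≤ ((Cr * A ^ r.totalDegree).natAbs : ℤ) := Int.le_natAbs
      have h4 : (((Cr * A ^ r.totalDegree).natAbs : ℕ) : ℤ) ≤ ((2 * H + 1 : ℕ) : ℤ) := by
        exact_mod_cast (by omega : (Cr * A ^ r.totalDegree).natAbs ≤ 2 * H + 1)
      exact h3.trans h4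
    calc Cr * (A ^ r.totalDegree * ((2 * H + 1 : ℕ) : ℤ) ^ r.totalDegree) =
        (Cr * A ^ r.totalDegree) * ((2 * H + 1 : ℕ) : ℤ) ^ r.totalDegree := by ring
      _ ≤ ((2 * H + 1 : ℕ) : ℤ) * ((2 * H + 1 : ℕ) : ℤ) ^ r.totalDegree :=
          mul_le_mul_of_nonneg_right h2 (by positivity)
      _ = _ := by ring
  -- the three parts
  set I := (Finset.Ioc B (2 * H + 1)).filter fun p => p.Prime ∧ ¬ p ∣ Q with hI'
  set M : ℕ → Finset (Fin (N + 1) → ℤ) := fun p => (box (N + 1) H).filter fun b =>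
    (p : ℤ) ∣ eval (fun i => c i + Q * b i) h ∧ (p : ℤ) ∣ eval (fun i => c i + Q * b i) g with hM
  set X₁ := (box (N + 1) H).filter fun b =>
      eval (fun i => shear l c i + Q * shear l b i) r = 0 with hX₁
  set X₂ := (box (N + 1) H).filter fun b => eval (fun i => shear l c i + Q * shear l b i) r ≠ 0 ∧
      ∃ p : ℕ, p.Prime ∧ 2 * H + 1 < p ∧ ¬ p ∣ Q ∧ (p : ℤ) ∣ eval (fun i => c i + Q * b i) h ∧
        (p : ℤ) ∣ eval (fun i => shear l c i + Q * shear l b i) r with hX₂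
  have hcov : bad h g Q c H ⊆ I.biUnion M ∪ (X₁ ∪ X₂) := by
    intro b hb
    rw [bad, Finset.mem_filter] at hb
    obtain ⟨hbb, p, hp, hpQ, hph, hpg⟩ := hb
    rw [Finset.mem_union, Finset.mem_union, Finset.mem_biUnion]
    by_cases hpH : p ≤ 2 * H + 1
    · left
      refine ⟨p, ?_, ?_⟩
      · rw [hI', Finset.mem_filter, Finset.mem_Ioc]
        exact ⟨⟨hBQ p hp hpQ, hpH⟩, hp, hpQ⟩
      · rw [hM, Finset.mem_filter]
        exact ⟨hbb, hph, hpg⟩
    · right
      by_cases hz : eval (fun i => shear l c i + Q * shear l b i) r = 0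
      · left
        rw [hX₁, Finset.mem_filter]
        exact ⟨hbb, hz⟩
      · right
        rw [hX₂, Finset.mem_filter]
        refine ⟨hbb, hz, p, hp, not_le.1 hpH, hpQ, hph, ?_⟩
        have h1 := hI ℤ (fun i => shear l c i + Q * shear l b i)
          (c (Fin.last N) + Q * b (Fin.last N))
        simp only [Int.cast_id] at h1
        rw [← shear_eq l c b Q] at h1
        obtain ⟨u, v, huv⟩ := Ideal.mem_span_pair.1 h1
        have h2 : aeval (fun i => shear l c i + Q * shear l b i) r =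
          eval (fun i => shear l c i + Q * shear l b i) r := rfl
        have h3 : aeval (fun i => c i + Q * b i) h = eval (fun i => c i + Q * b i) h := rfl
        have h4 : aeval (fun i => c i + Q * b i) g = eval (fun i => c i + Q * b i) g := rfl
        rw [← h2, ← huv, h3, h4]
        exact dvd_add (Dvd.dvd.mul_left hph u) (Dvd.dvd.mul_left hpg v)
  have hm0 : (0 : ℝ) < 2 * (H : ℝ) + 1 := by positivity
  -- medium
  have hmed : ∀ p ∈ I, ((M p).card : ℝ) ≤ C * (2 * (H : ℝ) + 1) ^ (N + 1) * (((p : ℝ)) ^ 2)⁻¹ := by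
    intro p hp
    rw [hI', Finset.mem_filter, Finset.mem_Ioc] at hp
    obtain ⟨⟨hBp, hpH⟩, hpp, hpQ⟩ := hp
    have : Fact p.Prime := ⟨hpp⟩
    have h1 := medium h g l D r p hpp (fun y t => hI (ZMod p) y t)
      (fun y => hD (ZMod p) y (hpe p hpp hBp)) (hpr p hpp hBp) Q H hpQ hpH c
    have hp0 : (0 : ℝ) < (p : ℝ) ^ 2 := by
      have : (0 : ℝ) < p := by exact_mod_cast hpp.pos
      positivity
    rw [← div_eq_mul_inv, le_div_iff₀ hp0, hC]
    exact_mod_cast h1
  have hsum : ∑ p ∈ I, ((M p).card : ℝ) ≤ C * (2 * (H : ℝ) + 1) ^ (N + 1) * (B : ℝ)⁻¹ := by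
    calc ∑ p ∈ I, ((M p).card : ℝ) ≤ ∑ p ∈ I, C * (2 * (H : ℝ) + 1) ^ (N + 1) * (((p : ℝ)) ^ 2)⁻¹ :=
          Finset.sum_le_sum hmed
      _ ≤ ∑ p ∈ Finset.Ioc B (2 * H + 1), C * (2 * (H : ℝ) + 1) ^ (N + 1) * (((p : ℝ)) ^ 2)⁻¹ := by
          apply Finset.sum_le_sum_of_subset_of_nonneg (Finset.filter_subset _ _)
          intro p _ _
          positivity
      _ = C * (2 * (H : ℝ) + 1) ^ (N + 1) * ∑ p ∈ Finset.Ioc B (2 * H + 1), (((p : ℝ)) ^ 2)⁻¹ := by
          rw [Finset.mul_sum]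
      _ ≤ C * (2 * (H : ℝ) + 1) ^ (N + 1) * (B : ℝ)⁻¹ := by
          apply mul_le_mul_of_nonneg_left _ (by positivity)
          have h1 := sum_Ioc_inv_sq_le_sub (α := ℝ) (k := B) (n := 2 * H + 1) (by omega) hHB
          refine h1.trans ?_
          have : (0 : ℝ) ≤ ((2 * H + 1 : ℕ) : ℝ)⁻¹ := by positivity
          linarith
  have hCB : C * (B : ℝ)⁻¹ ≤ ε / 2 := by
    have hB0 : (0 : ℝ) < B := by exact_mod_cast hB1
    rw [← div_eq_mul_inv, div_le_iff₀ hB0]
    have h1 : 2 * C / ε ≤ B := by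
      have : (B₁ : ℝ) ≤ B := by exact_mod_cast (by omega : B₁ ≤ B)
      linarith
    rw [div_le_iff₀ hε] at h1
    linarith
  -- large
  have hl1 := large1 l r hr Q H L hQ hLl hL1 c
  have hl2 := large2 l h D r B Q H L K hLl hQB
    (fun p hp hBp y => by
      have : Fact p.Prime := ⟨hp⟩
      exact hD (ZMod p) y (hpe p hp hBp)) c hgr
  rw [← hX₁] at hl1
  have hl2' : (X₂.card : ℝ) ≤ (K * D) * (2 * ((L * H : ℕ) : ℝ) + 1) ^ N := by
    have h1 : X₂.card ≤ (K * D) * (2 * (L * H) + 1) ^ N := by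
      convert hl2
    exact_mod_cast h1
  have hLH : 2 * ((L * H : ℕ) : ℝ) + 1 ≤ L * (2 * (H : ℝ) + 1) := by
    have : (1 : ℝ) ≤ L := by exact_mod_cast hL1
    push_cast
    nlinarith
  have hLHN : (2 * ((L * H : ℕ) : ℝ) + 1) ^ N ≤ (L : ℝ) ^ N * (2 * (H : ℝ) + 1) ^ N := by
    rw [← mul_pow]
    exact pow_le_pow_left₀ (by positivity) hLH N
  have hlarge : (X₁.card : ℝ) + X₂.card ≤ (ε / 2) * (2 * (H : ℝ) + 1) ^ (N + 1) := by
    have h1 : 2 * ((S + K * D) * (L : ℝ) ^ N) / ε ≤ 2 * (H : ℝ) + 1 := by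
      have h2 : (H₁ : ℝ) ≤ H := by exact_mod_cast (by omega : H₁ ≤ H)
      have h3 : (0 : ℝ) ≤ H := by positivity
      linarith
    rw [div_le_iff₀ hε] at h1
    calc (X₁.card : ℝ) + X₂.card ≤ S * (2 * ((L * H : ℕ) : ℝ) + 1) ^ N +
          (K * D) * (2 * ((L * H : ℕ) : ℝ) + 1) ^ N := add_le_add hl1 hl2'
      _ = (S + K * D) * (2 * ((L * H : ℕ) : ℝ) + 1) ^ N := by ring
      _ ≤ (S + K * D) * ((L : ℝ) ^ N * (2 * (H : ℝ) + 1) ^ N) :=
          mul_le_mul_of_nonneg_left hLHN (by positivity)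
      _ = ((S + K * D) * (L : ℝ) ^ N) * (2 * (H : ℝ) + 1) ^ N := by ring
      _ ≤ ((ε / 2) * (2 * (H : ℝ) + 1)) * (2 * (H : ℝ) + 1) ^ N :=
          mul_le_mul_of_nonneg_right (by linarith) (by positivity)
      _ = _ := by ring
  have hcard : ((bad h g Q c H).card : ℝ) ≤ ∑ p ∈ I, ((M p).card : ℝ) + ((X₁.card : ℝ) + X₂.card) := by
    have h1 : (bad h g Q c H).card ≤ ∑ p ∈ I, (M p).card + (X₁.card + X₂.card) := by
      refine (Finset.card_le_card hcov).trans ((Finset.card_union_le _ _).trans ?_)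
      exact add_le_add Finset.card_biUnion_le (Finset.card_union_le _ _)
    exact_mod_cast h1
  calc ((bad h g Q c H).card : ℝ) ≤ _ := hcard
    _ ≤ C * (2 * (H : ℝ) + 1) ^ (N + 1) * (B : ℝ)⁻¹ + (ε / 2) * (2 * (H : ℝ) + 1) ^ (N + 1) :=
        add_le_add hsum hlarge
    _ = (C * (B : ℝ)⁻¹) * (2 * (H : ℝ) + 1) ^ (N + 1) + (ε / 2) * (2 * (H : ℝ) + 1) ^ (N + 1) := by ring
    _ ≤ (ε / 2) * (2 * (H : ℝ) + 1) ^ (N + 1) + (ε / 2) * (2 * (H : ℝ) + 1) ^ (N + 1) := by
        gcongr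
    _ = ε * (2 * (H : ℝ) + 1) ^ (N + 1) := by ring

/-- if one of the values is a nonzero constant -/
lemma const_case {σ : Type} [Fintype σ] (h g : MvPolynomial σ ℤ) (m : ℤ) (hm : m ≠ 0)
    (hC : h = C m ∨ g = C m) (ε : ℝ) (hε : 0 < ε) :
    ∃ B : ℕ, ∀ Q : ℕ, 0 < Q → (∀ p : ℕ, p.Prime → p ≤ B → p ∣ Q) →
    ∀ c : σ → ℤ, ∃ H₀ : ℕ, ∀ H : ℕ, H₀ ≤ H →
    (Nat.card {b : σ → ℤ // (∀ i, |b i| ≤ H) ∧ ∃ p : ℕ, p.Prime ∧ ¬ p ∣ Q ∧
      (p : ℤ) ∣ eval (fun i => c i + Q * b i) h ∧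
      (p : ℤ) ∣ eval (fun i => c i + Q * b i) g} : ℝ) ≤
        ε * (2 * (H : ℝ) + 1) ^ Fintype.card σ := by
  refine ⟨m.natAbs, fun Q hQ hQB c => ⟨0, fun H _ => ?_⟩⟩
  have hemp : IsEmpty {b : σ → ℤ // (∀ i, |b i| ≤ H) ∧ ∃ p : ℕ, p.Prime ∧ ¬ p ∣ Q ∧
      (p : ℤ) ∣ eval (fun i => c i + Q * b i) h ∧
      (p : ℤ) ∣ eval (fun i => c i + Q * b i) g} := by
    constructor
    rintro ⟨b, _, p, hp, hpQ, hph, hpg⟩
    apply hpQ
    apply hQB p hp
    have h1 : (p : ℤ) ∣ m := by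
      rcases hC with h2 | h2
      · rw [h2, eval_C] at hph
        exact hph
      · rw [h2, eval_C] at hpg
        exact hpg
    exact Nat.le_of_dvd (Int.natAbs_pos.2 hm) (Int.natCast_dvd.1 h1)
  rw [Nat.card_of_isEmpty]
  push_cast
  positivity

lemma isRelPrime_rename {σ τ : Type} (e : σ ≃ τ) (h g : MvPolynomial σ ℤ)
    (hg : IsRelPrime (map (Int.castRingHom ℚ) h) (map (Int.castRingHom ℚ) g)) :
    IsRelPrime (map (Int.castRingHom ℚ) (rename e h)) (map (Int.castRingHom ℚ) (rename e g)) := by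
  rw [map_rename, map_rename]
  intro d hd1 hd2
  have h1 : (renameEquiv ℚ e).symm d ∣ map (Int.castRingHom ℚ) h := by
    have := map_dvd (renameEquiv ℚ e).symm hd1
    rwa [show (rename e) ((map (Int.castRingHom ℚ)) h) =
      (renameEquiv ℚ e) ((map (Int.castRingHom ℚ)) h) from rfl, AlgEquiv.symm_apply_apply] at this
  have h2 : (renameEquiv ℚ e).symm d ∣ map (Int.castRingHom ℚ) g := by
    have := map_dvd (renameEquiv ℚ e).symm hd2
    rwa [show (rename e) ((map (Int.castRingHom ℚ)) g) =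
      (renameEquiv ℚ e) ((map (Int.castRingHom ℚ)) g) from rfl, AlgEquiv.symm_apply_apply] at this
  have h3 := hg h1 h2
  exact (MulEquiv.isUnit_map (renameEquiv ℚ e).symm).1 h3

theorem count (hE : S_ELIM) : S_SIEVE := by
  classical
  intro σ _ _ h g hg ε hε
  by_cases h0 : h = 0
  · rw [h0, map_zero, isRelPrime_zero_left] at hg
    obtain ⟨q, hq, hgq⟩ := MvPolynomial.isUnit_iff_eq_C_of_isReduced.1 hg
    have h1 : g = C (coeff 0 g) := by
      apply map_injective (Int.castRingHom ℚ) (RingHom.injective_int (Int.castRingHom ℚ))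
      rw [map_C, hgq]
      congr 1
      have h2 : coeff 0 (map (Int.castRingHom ℚ) g) = q := by rw [hgq]; simp
      rw [coeff_map] at h2
      exact h2.symm
    have h2 : coeff 0 g ≠ 0 := by
      intro h3
      rw [h3, map_zero] at h1
      rw [h1, map_zero] at hg
      exact not_isUnit_zero hg
    exact const_case h g _ h2 (Or.inr h1) ε hε
  rcases isEmpty_or_nonempty σ with hσ | hσ
  · have h1 := MvPolynomial.eq_C_of_isEmpty h
    have h2 : coeff 0 h ≠ 0 := by
      intro h3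
      rw [h3, map_zero] at h1
      exact h0 h1
    exact const_case h g _ h2 (Or.inl h1) ε hε
  obtain ⟨N, hN⟩ : ∃ N, Fintype.card σ = N + 1 :=
    ⟨Fintype.card σ - 1, by have := Fintype.card_pos (α := σ); omega⟩
  let e : σ ≃ Fin (N + 1) := (Fintype.equivFin σ).trans (finCongr hN)
  have h1 : rename e h ≠ 0 := by
    intro h2
    exact h0 (rename_injective e e.injective (by rw [h2, map_zero]))
  obtain ⟨B, hB⟩ := core hE (rename e h) (rename e g) h1 (isRelPrime_rename e h g hg) ε hε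
  refine ⟨B, fun Q hQ hQB c => ?_⟩
  obtain ⟨H₀, hH₀⟩ := hB Q hQ hQB (fun j => c (e.symm j))
  refine ⟨H₀, fun H hH => ?_⟩
  have h2 := hH₀ H hH
  rw [card_transfer e H (fun b => ∃ p : ℕ, p.Prime ∧ ¬ p ∣ Q ∧
      (p : ℤ) ∣ eval (fun i => c i + Q * b i) h ∧
      (p : ℤ) ∣ eval (fun i => c i + Q * b i) g), hN]
  simp only [eval_transfer e h Q c, eval_transfer e g Q c]
  refine le_trans (le_of_eq ?_) h2
  congr 1

end Pool.Agent.Run7.h468.HP
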